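import Pool.Agent.Helper67.NO.St1

/-!
# Project NO, module EIK: the eikonal equation
-/

set_option autoImplicit false

namespace Pool.Agent.Helper38.NO

open Pool.Agent.Helper67.NO
open Matrix
open scoped Matrix.Norms.Frobenius ContDiff Topology

/-- the trace computation -/
theorem eik_trace {n : Type} [Fintype n] [DecidableEq n] (a b X Y : Matrix n n ℂ)
    (e1 : a * aᴴ - aᴴ * a + (b * bᴴ - bᴴ * b) = X) (e2 : a * b - b * a = Y)
    (h1 : a * X = 0) (h2 : X * aᴴ = 0) (h3 : X * b = 0) (h4 : bᴴ * X = 0)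
    (h5 : bᴴ * Y = 0) (h6 : Yᴴ * b = 0) :
    trace (X * X) = 2 * trace (Yᴴ * Y) := by
  have hS : a * aᴴ - bᴴ * b = (aᴴ * a - b * bᴴ) + X := by rw [← e1]; abel
  have hSX : (aᴴ * a - b * bᴴ) * X = 0 := by
    rw [sub_mul, Matrix.mul_assoc, Matrix.mul_assoc, h1, h4, Matrix.mul_zero, Matrix.mul_zero,
      sub_zero]
  have hXS : X * (aᴴ * a - b * bᴴ) = 0 := by
    rw [mul_sub, ← Matrix.mul_assoc, ← Matrix.mul_assoc, h2, h3, Matrix.zero_mul,
      Matrix.zero_mul, sub_zero]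
  have hT : trace ((a * aᴴ - bᴴ * b) * (a * aᴴ - bᴴ * b))
      = trace ((aᴴ * a - b * bᴴ) * (aᴴ * a - b * bᴴ)) + trace (X * X) := by
    rw [hS, add_mul, mul_add, mul_add, hSX, hXS, add_zero, zero_add, trace_add]
  have hR : a * b = b * a + Y := by rw [← e2]; abel
  have hN : trace ((a * b)ᴴ * (a * b)) = trace ((b * a)ᴴ * (b * a)) + trace (Yᴴ * Y) := by
    have k1 : (b * a)ᴴ * Y = 0 := by
      rw [conjTranspose_mul, Matrix.mul_assoc, h5, Matrix.mul_zero]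
    have k2 : Yᴴ * (b * a) = 0 := by
      rw [← Matrix.mul_assoc, h6, Matrix.zero_mul]
    rw [hR, conjTranspose_add, add_mul, mul_add, mul_add, k1, k2, add_zero, zero_add, trace_add]
  have t1 : trace (a * aᴴ * (a * aᴴ)) = trace (aᴴ * a * (aᴴ * a)) := by
    rw [Matrix.mul_assoc a aᴴ, trace_mul_comm a]
    congr 1
    simp only [Matrix.mul_assoc]
  have t2 : trace (bᴴ * b * (bᴴ * b)) = trace (b * bᴴ * (b * bᴴ)) := by
    rw [Matrix.mul_assoc bᴴ b, trace_mul_comm bᴴ]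
    congr 1
    simp only [Matrix.mul_assoc]
  have t3 : trace (a * aᴴ * (bᴴ * b)) = trace ((b * a)ᴴ * (b * a)) := by
    rw [conjTranspose_mul, Matrix.mul_assoc a aᴴ, trace_mul_comm a]
    congr 1
    simp only [Matrix.mul_assoc]
  have t4 : trace (bᴴ * b * (a * aᴴ)) = trace ((b * a)ᴴ * (b * a)) := by
    rw [trace_mul_comm, t3]
  have t5 : trace (aᴴ * a * (b * bᴴ)) = trace ((a * b)ᴴ * (a * b)) := by
    rw [conjTranspose_mul, ← Matrix.mul_assoc (aᴴ * a) b bᴴ, trace_mul_comm _ bᴴ]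
    congr 1
    simp only [Matrix.mul_assoc]
  have t6 : trace (b * bᴴ * (aᴴ * a)) = trace ((a * b)ᴴ * (a * b)) := by
    rw [trace_mul_comm, t5]
  rw [sub_mul, mul_sub, mul_sub, sub_mul, mul_sub, mul_sub] at hT
  simp only [trace_sub] at hT
  rw [t1, t2, t3, t4, t5, t6, hN] at hT
  linear_combination -hT

theorem pEIK (h1 : StBL) (h2 : StBDA) (h3 : StALG) : StEIK := by
  intro ι κ _ _ _ _ lev A H a b hCh hmom
  obtain ⟨ha, hb, hab⟩ := hCh
  obtain ⟨-, b2, b3, -, -, -, b7, -⟩ := h1 ι κ lev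
  obtain ⟨d1, d2, -, -, -, d6, -⟩ := h2 ι κ
  obtain ⟨-, -, -, g4, -⟩ := h3 ι
  have hH : H.IsHermitian := by
    obtain ⟨h, y, -, hm, hh, -⟩ := b7 a b ha hb
    rw [hmom] at hm
    rw [(d6 H h 0 y hm).1]
    exact hh
  refine ⟨hH, ?_⟩
  have hnorm : ∀ M : Matrix ι ι ℂ, trace (Mᴴ * M) = ((‖M‖ ^ 2 : ℝ) : ℂ) := by
    intro M
    have h := g4 M 0
    unfold ip nsq at h
    rw [Matrix.mul_zero, trace_zero, add_zero, norm_zero] at h
    rw [h]
    norm_num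
  have hstar : ∀ M : Matrix ι ι ℂ, (bd M (0 : Matrix κ κ ℂ))ᴴ = bd Mᴴ 0 := by
    intro M
    rw [(d2 M 0).1, conjTranspose_zero]
  have key := eik_trace a b (bd H 0) (bd A 0) (by
      rw [← hmom]
      rfl) hab (b2 a ha H).1 (b2 a ha H).2 (b3 b hb H).1 (b3 b hb H).2 (b3 b hb A).2 (by
      rw [hstar A]
      exact (b3 b hb Aᴴ).1)
  have q1 : trace (bd H (0 : Matrix κ κ ℂ) * bd H 0) = trace (Hᴴ * H) := by
    rw [(d1 H H 0 0).1, (d2 (H * H) (0 * 0)).2.2.1, Matrix.mul_zero, trace_zero, add_zero, hH.eq]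
  have q2 : trace ((bd A (0 : Matrix κ κ ℂ))ᴴ * bd A 0) = trace (Aᴴ * A) := by
    rw [hstar A, (d1 Aᴴ A 0 0).1, (d2 (Aᴴ * A) (0 * 0)).2.2.1, Matrix.mul_zero, trace_zero,
      add_zero]
  rw [q1, q2, hnorm H, hnorm A] at key
  exact_mod_cast key

end Pool.Agent.Helper38.NO
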