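import Pool.Agent.Helper67.NO.St2

/-!
# Project NO, module IFA: assembly of part A
-/

set_option autoImplicit false

namespace Pool.Agent.Helper38.NO

open Pool.Agent.Helper67.NO
open Matrix
open scoped Matrix.Norms.Frobenius ContDiff Topology

/-- the correction of the level preserving part is determined by the moment map -/
theorem ifa_uniq (h3 : StBDA) (h4 : StALG) (h5 : StGEN) {ι κ : Type} [Fintype ι] [DecidableEq ι]
    [Fintype κ] [DecidableEq κ] (lev : κ → ℕ) (a b : Matrix (ι ⊕ κ) (ι ⊕ κ) ℂ) (hb : Rai lev b)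
    (hst : Stab a b) (H D D' : Matrix ι ι ℂ) (η η' : Matrix κ κ ℂ) (hη : η.IsHermitian)
    (hη' : η'.IsHermitian) (e : dm a b (br (bd H η) a) (br (bd H η) b) = bd D 0)
    (e' : dm a b (br (bd H η') a) (br (bd H η') b) = bd D' 0) : D = D' := by
  obtain ⟨d1, d2, -, -, -, d6, -⟩ := h3 ι κ
  obtain ⟨-, -, g3, g4, -, -, -, -, g9⟩ := h4 (ι ⊕ κ)
  set ζ : Matrix κ κ ℂ := η - η' with hζ
  have hζH : (bd (0 : Matrix ι ι ℂ) ζ)ᴴ = bd 0 ζ := by
    rw [(d2 0 ζ).1, conjTranspose_zero, hζ, conjTranspose_sub, hη.eq, hη'.eq]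
  have hsub : bd (0 : Matrix ι ι ℂ) ζ = bd H η - bd H η' := by
    rw [(d1 H H η η').2.2.1, sub_self]
  have hbr : ∀ c : Matrix (ι ⊕ κ) (ι ⊕ κ) ℂ,
      br (bd (0 : Matrix ι ι ℂ) ζ) c = br (bd H η) c - br (bd H η') c := by
    intro c
    rw [hsub]
    unfold br
    rw [sub_mul, mul_sub]
    abel
  have hdm : dm a b (br (bd (0 : Matrix ι ι ℂ) ζ) a) (br (bd (0 : Matrix ι ι ℂ) ζ) b)
      = bd (D - D') 0 := by
    have hD : bd (D - D') (0 : Matrix κ κ ℂ) = bd D 0 - bd D' 0 := by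
      rw [(d1 D D' 0 0).2.2.1, sub_zero]
    rw [hD, ← e, ← e', hbr, hbr]
    unfold dm br
    simp only [conjTranspose_sub, sub_mul, mul_sub, conjTranspose_mul]
    abel
  have htr : trace (bd (0 : Matrix ι ι ℂ) ζ
      * dm a b (br (bd (0 : Matrix ι ι ℂ) ζ) a) (br (bd (0 : Matrix ι ι ℂ) ζ) b)) = 0 := by
    rw [hdm, (d1 0 (D - D') ζ 0).1, (d2 (0 * (D - D')) (ζ * 0)).2.2.1, Matrix.zero_mul,
      Matrix.mul_zero, trace_zero, trace_zero, add_zero]
  rw [g3, hζH, g4] at htr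
  have hn : nsq (br (bd (0 : Matrix ι ι ℂ) ζ) a) (br (bd (0 : Matrix ι ι ℂ) ζ) b) = 0 := by
    have h := congrArg Complex.re htr
    simp only [Complex.add_re, Complex.ofReal_re, Complex.star_def, Complex.conj_re,
      Complex.zero_re] at h
    linarith
  have hz : ζ = 0 := (h5 ι κ lev a b hb hst).2 ζ (g9 _ _ hn).2
  have hηη : η = η' := sub_eq_zero.1 hz
  rw [hηη, e'] at e
  exact (d6 D' D 0 0 e).1.symm

theorem pIFA (h1 : StBL) (h2 : StLVL) (h3 : StBDA) (h4 : StALG) (h5 : StGEN) (h6 : StMIN)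
    (h7 : StEIK) (h8 : StFLW) (h9 : StSM1) (h10 : StSM2) (h11 : StHOR) (h12 : StBF1)
    (h13 : StBF2) : StIFA := by
  intro ι κ _ _ _ _ lev
  obtain ⟨-, m2, m3⟩ := h6 ι κ lev
  refine
    { bdd := ⟨2, 2 * ((Fintype.card ι + Fintype.card κ + 1 : ℕ) : ℝ) ^ 3, two_pos, m3⟩
      hom := m2
      smooth := fun A hA => (h9 ι κ lev A hA).1
      smoothH := fun A hA => (h10 ι κ lev A hA).1
      herm := fun A hA => (h10 ι κ lev A hA).2.1
      grad := ?_
      eik := ?_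
      flow := ?_
      bform := ?_ }
  · intro A hA X
    obtain ⟨-, -, a, b, hCh, -, hm, -⟩ := h10 ι κ lev A hA
    exact ((h9 ι κ lev A hA).2 a b (Hm lev A) hCh hm).2 X
  · intro A hA
    obtain ⟨-, -, a, b, hCh, -, hm, -⟩ := h10 ι κ lev A hA
    exact (h7 ι κ lev A (Hm lev A) a b hCh hm).2
  · intro A hA
    obtain ⟨-, -, a, b, hCh, hst, hm, hD⟩ := h10 ι κ lev A hA
    obtain ⟨η, -, hη, e⟩ := hD (Hm lev A)
    obtain ⟨η', -, hη', e'⟩ := h8 ι κ lev A (Hm lev A) a b hCh hm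
    exact ifa_uniq h3 h4 h5 lev a b hCh.2.1 hst _ _ _ η η' hη hη' e e'
  · intro A hA
    obtain ⟨-, -, a, b, hCh, hst, hm, hD⟩ := h10 ι κ lev A hA
    obtain ⟨θ, hθ⟩ := h11 ι κ lev (Hm lev A) a b hCh.1 hCh.2.1 hst hm
    obtain ⟨c1, c2, c3, c4, c5, c6, c7⟩ := h12 ι κ lev A (Hm lev A) a b θ hCh hst hm hθ
    obtain ⟨k1, k2⟩ := h13 ι κ lev A (Hm lev A) a b θ (DHm lev A) hCh hst hm hθ
      (fun X Y => by unfold DHm; exact map_add _ X Y) hD
    exact ⟨BB a b θ,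
      { add := c1
        smul := c2
        symm := c3
        nonneg := c4
        ker := c5
        quat := c6
        imag := c7
        real := k1
        levi := k2 }⟩

end Pool.Agent.Helper38.NO
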